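import Mathlib

/-!
Square-in-square relations at successor cardinals with infinitely many colours.

For every infinite cardinal `ν` (in particular for `ν = κ⁺`, `κ` singular) and every infinite
cardinal `θ`, there is an ordinal `τ < ν⁺` (namely `τ = ν ^ ω`) for which `sis(ν⁺, τ, θ)` fails.
The colouring comes from the Milner-Rado decomposition of every ordinal below `ν⁺` into countably
many sets, the `n`-th one of order type at most `ν ^ n`.
-/

namespace Pool.Agent.Results.MP_f41cbc_lc.InfiniteColors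

open Cardinal Ordinal Order

universe u

/-- `Sis lam τ θ`: for every colouring `c : lam × lam → θ` there are `A, B ⊆ lam`, both of order
type `τ`, such that `c` is constant on `A × B`. Here the ordinal `lam` is represented by the
well-ordered type `lam.ord.ToType` and the set of colours by `θ.ord.ToType`. -/
def Sis (lam : Cardinal.{u}) (τ : Ordinal.{u}) (θ : Cardinal.{u}) : Prop :=
  ∀ c : lam.ord.ToType → lam.ord.ToType → θ.ord.ToType,
    ∃ A B : Set lam.ord.ToType,
      Ordinal.type (fun x y : A => x < y) = τ ∧ Ordinal.type (fun x y : B => x < y) = τ ∧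
        ∃ i : θ.ord.ToType, ∀ a ∈ A, ∀ b ∈ B, c a b = i

/-- Milner-Rado decomposition: every ordinal `o` of cardinality at most `ν` is split in countably
many sets (the fibres of `f`), the `n`-th of which is mapped strictly increasingly by `g` into
`ν ^ n`. -/
theorem milner_rado (ν : Cardinal.{u}) (hν : ℵ₀ ≤ ν) (o : Ordinal.{u}) (ho : o.card ≤ ν) :
    ∃ (f : Ordinal.{u} → ℕ) (g : Ordinal.{u} → Ordinal.{u}),
      (∀ x < o, g x < ν.ord ^ (f x : Ordinal.{u})) ∧
      (∀ x y, x < y → y < o → f x = f y → g x < g y) := by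
  classical
  have hpos : 0 < ν.ord := by
    rw [Cardinal.lt_ord]
    simp
    exact lt_of_lt_of_le aleph0_pos hν
  induction o using WellFoundedLT.induction with
  | _ o ih =>
  by_cases ho0 : o = 0
  · subst ho0
    refine ⟨fun _ => 0, fun _ => 0, ?_, ?_⟩
    · intro x hx
      exact absurd hx (by simp)
    · intro x y _ hy
      exact absurd hy (by simp)
  -- a surjection from `ν` onto `o`
  obtain ⟨e, heo, he⟩ : ∃ e : Ordinal.{u} → Ordinal.{u}, (∀ i, e i < o) ∧
      ∀ x < o, ∃ i < ν.ord, e i = x := by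
    have hcard : #o.ToType ≤ #ν.ord.ToType := by
      rw [Cardinal.mk_toType, Cardinal.mk_toType]; simpa using ho
    obtain ⟨φ⟩ := hcard
    have hne : Nonempty o.ToType := Ordinal.nonempty_toType_iff.2 ho0
    let ψ : ν.ord.ToType → o.ToType := Function.invFun φ
    have hψ : Function.Surjective ψ := Function.invFun_surjective φ.injective
    refine ⟨fun i => if h : i < ν.ord then (ψ (ToType.mk ⟨i, h⟩)).toOrd.1 else 0, ?_, ?_⟩
    · intro i
      by_cases h : i < ν.ord
      · simp only [h, dite_true]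
        exact (ψ (ToType.mk ⟨i, h⟩)).toOrd.2
      · simp only [h, dite_false]
        exact pos_iff_ne_zero.2 ho0
    · intro x hx
      obtain ⟨j, hj⟩ := hψ (ToType.mk ⟨x, hx⟩)
      refine ⟨j.toOrd.1, j.toOrd.2, ?_⟩
      have h1 : (j.toOrd.1 : Ordinal.{u}) < ν.ord := j.toOrd.2
      simp only [h1, dite_true]
      have h2 : ToType.mk (⟨j.toOrd.1, h1⟩ : Set.Iio ν.ord) = j := by
        exact ToType.mk.apply_symm_apply j
      rw [h2, hj]
      simp
  -- the decompositions of the ordinals `e i`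
  have hex : ∀ i, ∃ (f : Ordinal.{u} → ℕ) (g : Ordinal.{u} → Ordinal.{u}),
      (∀ x < e i, g x < ν.ord ^ (f x : Ordinal.{u})) ∧
      (∀ x y, x < y → y < e i → f x = f y → g x < g y) := fun i =>
    ih (e i) (heo i) ((Ordinal.card_le_card (heo i).le).trans ho)
  choose F G hFG1 hFG2 using hex
  -- the first index whose value is at least `x`
  have hidx : ∀ x : Ordinal.{u}, ∃ i : Ordinal.{u}, x < o →
      (i < ν.ord ∧ x ≤ e i ∧ ∀ j, x ≤ e j → i ≤ j) := by
    intro x
    by_cases hx : x < o
    · have hne : ∃ i, x ≤ e i := by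
        obtain ⟨i, _, hi⟩ := he x hx
        exact ⟨i, hi.ge⟩
      refine ⟨sInf {i | x ≤ e i}, fun _ => ⟨?_, csInf_mem hne, fun j hj => csInf_le' hj⟩⟩
      obtain ⟨i, hi1, hi⟩ := he x hx
      exact lt_of_le_of_lt (csInf_le' (show i ∈ {i | x ≤ e i} from hi.ge)) hi1
    · exact ⟨0, fun h => absurd h hx⟩
  choose I hI using hidx
  refine ⟨fun x => if x = e (I x) then 1 else F (I x) x + 2,
    fun x => if x = e (I x) then I x else ν.ord ^ (F (I x) x : Ordinal.{u}) * I x + G (I x) x,
    ?_, ?_⟩
  · intro x hx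
    obtain ⟨h1, h2, h3⟩ := hI x hx
    by_cases hxe : x = e (I x)
    · simp only [← hxe, if_true]
      simpa using h1
    · simp only [hxe, if_false]
      have hlt : x < e (I x) := lt_of_le_of_ne h2 hxe
      calc ν.ord ^ (F (I x) x : Ordinal.{u}) * I x + G (I x) x
          < ν.ord ^ (F (I x) x : Ordinal.{u}) * I x + ν.ord ^ (F (I x) x : Ordinal.{u}) := by
            gcongr
            exact hFG1 _ _ hlt
        _ = ν.ord ^ (F (I x) x : Ordinal.{u}) * (I x + 1) := by rw [mul_add, mul_one]
        _ ≤ ν.ord ^ (F (I x) x : Ordinal.{u}) * ν.ord := by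
            gcongr
            exact Order.add_one_le_of_lt h1
        _ = ν.ord ^ ((F (I x) x + 1 : ℕ) : Ordinal.{u}) := by
            push_cast
            rw [← Ordinal.opow_one ν.ord, ← Ordinal.opow_mul, ← Ordinal.opow_add]
            simp
        _ ≤ ν.ord ^ ((F (I x) x + 2 : ℕ) : Ordinal.{u}) := by
            apply Ordinal.opow_le_opow_right hpos
            exact_mod_cast Nat.le_succ _
  · intro x y hxy hy hf
    have hx : x < o := hxy.trans hy
    obtain ⟨hx1, hx2, hx3⟩ := hI x hx
    obtain ⟨hy1, hy2, hy3⟩ := hI y hy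
    have hmono : I x ≤ I y := hx3 _ (hxy.le.trans hy2)
    by_cases hxe : x = e (I x)
    · by_cases hye : y = e (I y)
      · simp only [← hxe, ← hye, if_true]
        refine lt_of_le_of_ne hmono ?_
        intro h
        rw [h] at hxe
        exact hxy.ne (hxe.trans hye.symm)
      · simp only [← hxe, hye, if_true, if_false] at hf
        omega
    · by_cases hye : y = e (I y)
      · simp only [← hye, hxe, if_true, if_false] at hf
        omega
      · simp only [hxe, hye, if_false] at hf ⊢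
        have hf' : F (I x) x = F (I y) y := by omega
        rcases hmono.eq_or_lt with h | h
        · rw [h] at hf' ⊢
          rw [hf']
          gcongr
          exact hFG2 _ _ _ hxy (lt_of_le_of_ne hy2 hye) hf'
        · have hlt : x < e (I x) := lt_of_le_of_ne hx2 hxe
          rw [hf']
          calc ν.ord ^ (F (I y) y : Ordinal.{u}) * I x + G (I x) x
              < ν.ord ^ (F (I y) y : Ordinal.{u}) * I x + ν.ord ^ (F (I y) y : Ordinal.{u}) := by
                gcongr
                rw [← hf']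
                exact hFG1 _ _ hlt
            _ = ν.ord ^ (F (I y) y : Ordinal.{u}) * (I x + 1) := by rw [mul_add, mul_one]
            _ ≤ ν.ord ^ (F (I y) y : Ordinal.{u}) * I y := by
                gcongr
                exact Order.add_one_le_of_lt h
            _ ≤ ν.ord ^ (F (I y) y : Ordinal.{u}) * I y + G (I y) y := le_self_add

/-- No strictly increasing function maps `[0, N]` into `N`. -/
theorem no_strict (N : Ordinal.{u}) (h : Ordinal.{u} → Ordinal.{u})
    (hm : ∀ x y, x < y → y ≤ N → h x < h y) (hb : h N < N) : False := by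
  have key : ∀ z, z ≤ N → z ≤ h z := by
    intro z
    induction z using WellFoundedLT.induction with
    | _ z ih =>
    intro hz
    by_contra hlt
    push Not at hlt
    have h1 : h z ≤ h (h z) := ih (h z) hlt (hlt.le.trans hz)
    exact absurd (hm (h z) z hlt hz) (not_lt.2 h1)
  exact absurd hb (not_lt.2 (key N le_rfl))

/-- A set of order type `τ` in a well-ordered type `L.ToType` has a strictly increasing
enumeration by the ordinals below `τ`. -/
theorem enumeration {L τ : Ordinal.{u}} (A : Set L.ToType)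
    (hA : Ordinal.type (fun x y : A => x < y) = τ) :
    ∃ a : Ordinal.{u} → Ordinal.{u}, (∀ z < τ, ∃ x : L.ToType, x ∈ A ∧ x.toOrd.1 = a z) ∧
      (∀ y z, y < z → z < τ → a y < a z) := by
  classical
  have h1 : Ordinal.type (fun x y : A => x < y) = Ordinal.type (fun x y : τ.ToType => x < y) := by
    rw [hA, Ordinal.type_toType]
  obtain ⟨φ⟩ := Ordinal.type_eq.1 h1
  refine ⟨fun z => if h : z < τ then (φ.symm (ToType.mk ⟨z, h⟩)).1.toOrd.1 else 0, ?_, ?_⟩
  · intro z hz
    refine ⟨(φ.symm (ToType.mk ⟨z, hz⟩)).1, (φ.symm (ToType.mk ⟨z, hz⟩)).2, ?_⟩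
    simp only [hz, dite_true]
  · intro y z hyz hz
    have hy : y < τ := hyz.trans hz
    simp only [hz, hy, dite_true]
    have h2 : (ToType.mk (⟨y, hy⟩ : Set.Iio τ)) < ToType.mk (⟨z, hz⟩ : Set.Iio τ) :=
      ToType.mk.lt_iff_lt.2 (Subtype.mk_lt_mk.2 hyz)
    have h3 := φ.symm.map_rel_iff.2 h2
    have h4 : (φ.symm (ToType.mk (⟨y, hy⟩ : Set.Iio τ))).1.toOrd <
        (φ.symm (ToType.mk (⟨z, hz⟩ : Set.Iio τ))).1.toOrd := ToType.mk.symm.lt_iff_lt.2 h3
    exact h4

/-- **Theorem.** For every infinite cardinal `ν` and every infinite cardinal `θ` there is an ordinal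
`τ < ν⁺` for which `sis(ν⁺, τ, θ)` fails. -/
theorem result : ∀ (ν θ : Cardinal.{u}), ℵ₀ ≤ ν → ℵ₀ ≤ θ →
    ∃ τ : Ordinal.{u}, τ < (Order.succ ν).ord ∧ ¬ Sis (Order.succ ν) τ θ := by
  classical
  intro ν θ hν hθ
  have hpos : 0 < ν.ord := by
    rw [Cardinal.lt_ord]
    simp
    exact lt_of_lt_of_le aleph0_pos hν
  have hων : ω ≤ ν.ord := by
    rw [← Cardinal.ord_aleph0]
    exact Cardinal.ord_le_ord.2 hν
  have hone : 1 < ν.ord := lt_of_lt_of_le Ordinal.one_lt_omega0 hων
  refine ⟨ν.ord ^ ω, ?_, ?_⟩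
  · rw [Cardinal.lt_ord]
    refine lt_of_le_of_lt (Ordinal.card_opow_le _ _) ?_
    simp only [Cardinal.card_ord, Ordinal.card_omega0]
    rw [Order.lt_succ_iff]
    simp [hν]
  · intro hsis
    -- Milner-Rado decompositions of all ordinals below `ν⁺`
    have hMR : ∀ o : Ordinal.{u}, ∃ (f : Ordinal.{u} → ℕ) (g : Ordinal.{u} → Ordinal.{u}),
        o < (Order.succ ν).ord →
        ((∀ x < o, g x < ν.ord ^ (f x : Ordinal.{u})) ∧
        (∀ x y, x < y → y < o → f x = f y → g x < g y)) := by
      intro o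
      by_cases h : o < (Order.succ ν).ord
      · have hc : o.card ≤ ν := by
          rw [Cardinal.lt_ord] at h
          exact Order.lt_succ_iff.1 h
        obtain ⟨f, g, h1, h2⟩ := milner_rado ν hν o hc
        exact ⟨f, g, fun _ => ⟨h1, h2⟩⟩
      · exact ⟨fun _ => 0, fun _ => 0, fun h' => absurd h' h⟩
    choose F G hFG using hMR
    -- an injection of `ℕ` in the set of colours
    have hinj : ∃ ι : ℕ → θ.ord.ToType, Function.Injective ι := by
      have h1 : ℵ₀ ≤ #θ.ord.ToType := by simpa using hθ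
      have h2 : Infinite θ.ord.ToType := Cardinal.aleph0_le_mk_iff.1 h1
      exact ⟨_, (Infinite.natEmbedding θ.ord.ToType).injective⟩
    obtain ⟨ι, hι⟩ := hinj
    obtain ⟨A, B, hA, hB, i, hc⟩ := hsis (fun α β =>
      ι (if α.toOrd.1 < β.toOrd.1 then F β.toOrd.1 α.toOrd.1 else F α.toOrd.1 β.toOrd.1))
    obtain ⟨a, ha1, ha2⟩ := enumeration A hA
    obtain ⟨b, hb1, hb2⟩ := enumeration B hB
    have hτpos : (0 : Ordinal.{u}) < ν.ord ^ ω := Ordinal.opow_pos _ hpos
    -- the common colour
    obtain ⟨n, hn⟩ : ∃ n : ℕ, ∀ y < ν.ord ^ ω, ∀ z < ν.ord ^ ω,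
        (if a y < b z then F (b z) (a y) else F (a y) (b z)) = n := by
      obtain ⟨x0, hx0, _⟩ := ha1 0 hτpos
      obtain ⟨y0, hy0, _⟩ := hb1 0 hτpos
      refine ⟨if x0.toOrd.1 < y0.toOrd.1 then F y0.toOrd.1 x0.toOrd.1
        else F x0.toOrd.1 y0.toOrd.1, ?_⟩
      intro y hy z hz
      obtain ⟨x, hx, hxy⟩ := ha1 y hy
      obtain ⟨x', hx', hxz⟩ := hb1 z hz
      have h1 := hc x hx x' hx'
      have h2 := hc x0 hx0 y0 hy0
      have h3 := hι (h1.trans h2.symm)
      rw [hxy, hxz] at h3
      exact h3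
    have hNlt : ν.ord ^ (n : Ordinal.{u}) < ν.ord ^ ω :=
      (Ordinal.opow_lt_opow_iff_right hone).2 (Ordinal.natCast_lt_omega0 n)
    have haL : ∀ z < ν.ord ^ ω, a z < (Order.succ ν).ord := by
      intro z hz
      obtain ⟨x, _, hx⟩ := ha1 z hz
      rw [← hx]
      exact x.toOrd.2
    have hbL : ∀ z < ν.ord ^ ω, b z < (Order.succ ν).ord := by
      intro z hz
      obtain ⟨x, _, hx⟩ := hb1 z hz
      rw [← hx]
      exact x.toOrd.2
    -- every `b z` is at most `a (ν ^ n)`
    have hba : ∀ z < ν.ord ^ ω, b z ≤ a (ν.ord ^ (n : Ordinal.{u})) := by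
      intro z hz
      by_contra hlt
      push Not at hlt
      have hlt' : ∀ y, y ≤ ν.ord ^ (n : Ordinal.{u}) → a y < b z := by
        intro y hy
        rcases hy.eq_or_lt with h | h
        · rw [h]; exact hlt
        · exact (ha2 y _ h hNlt).trans hlt
      have hcol : ∀ y, y ≤ ν.ord ^ (n : Ordinal.{u}) → F (b z) (a y) = n := by
        intro y hy
        have h1 := hn y (lt_of_le_of_lt hy hNlt) z hz
        rwa [if_pos (hlt' y hy)] at h1
      obtain ⟨hF1, hF2⟩ := hFG (b z) (hbL z hz)
      refine no_strict (ν.ord ^ (n : Ordinal.{u})) (fun y => G (b z) (a y)) ?_ ?_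
      · intro y y' hyy' hy'
        refine hF2 _ _ (ha2 y y' hyy' (lt_of_le_of_lt hy' hNlt)) (hlt' y' hy') ?_
        rw [hcol y (hyy'.le.trans hy'), hcol y' hy']
      · have h1 := hF1 _ (hlt' _ le_rfl)
        rw [hcol _ le_rfl] at h1
        exact h1
    have hba' : ∀ z < ν.ord ^ ω, b z < a (ν.ord ^ (n : Ordinal.{u})) := by
      intro z hz
      have hz' : z + 1 < ν.ord ^ ω := by
        have hlim : Order.IsSuccLimit (ν.ord ^ ω) :=
          Ordinal.isSuccLimit_opow hone Ordinal.isSuccLimit_omega0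
        exact hlim.succ_lt hz
      exact (hb2 z (z + 1) (Order.lt_succ z) hz').trans_le (hba _ hz')
    have hcol : ∀ z < ν.ord ^ ω, F (a (ν.ord ^ (n : Ordinal.{u}))) (b z) = n := by
      intro z hz
      have h1 := hn _ hNlt z hz
      rwa [if_neg (not_lt.2 (hba' z hz).le)] at h1
    obtain ⟨hF1, hF2⟩ := hFG _ (haL _ hNlt)
    refine no_strict (ν.ord ^ (n : Ordinal.{u})) (fun y => G (a (ν.ord ^ (n : Ordinal.{u}))) (b y))
      ?_ ?_
    · intro y y' hyy' hy'
      refine hF2 _ _ (hb2 y y' hyy' (lt_of_le_of_lt hy' hNlt))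
        (hba' y' (lt_of_le_of_lt hy' hNlt)) ?_
      rw [hcol y (hyy'.trans_le hy' |>.trans hNlt), hcol y' (lt_of_le_of_lt hy' hNlt)]
    · have h1 := hF1 _ (hba' _ hNlt)
      rw [hcol _ hNlt] at h1
      exact h1

end Pool.Agent.Results.MP_f41cbc_lc.InfiniteColors
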